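import Mathlib
import Pool.Agent.N290.RM.Stm
import Pool.Agent.N655.RJ.LA1

/-!
# Project RM (helper290): functions with square-Dini radial derivative have vanishing area
integral (SDV), by helper18
-/

set_option autoImplicit false

open Complex MeasureTheory Set Filter Topology
open scoped ENNReal

namespace Pool.Agent.N18.RM

open Pool.Agent.N290.RJ Pool.Agent.N290.RK Pool.Agent.N290.RL Pool.Agent.N290.RM
open Pool.Agent.N655.RJ

variable {d : ℕ}

/-- the majorant, extended by `0` on the left and by its value at `1` on the right -/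
noncomputable def om (α : ℝ → ℝ) (t : ℝ) : ℝ := if t ≤ 0 then 0 else α (min t 1)

theorem om_eq (α : ℝ → ℝ) {t : ℝ} (h0 : 0 < t) (h1 : t ≤ 1) : om α t = α t := by
  rw [om, if_neg (not_le.2 h0), min_eq_left h1]

/-- `α(t) t^(-1/8)` is nonincreasing on `(0, 1]` -/
theorem ratio {α : ℝ → ℝ} (h1 : ContDiffOn ℝ 1 α (Ioi 0))
    (h3 : ∀ t, 0 < t → t ≤ 1 → 0 < α t)
    (h4 : ∀ t, 0 < t → t ≤ 1 → t * deriv α t ≤ 1 / 512 * α t)
    {s t : ℝ} (ht : 0 < t) (hts : t ≤ s) (hs : s ≤ 1) :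
    α s ≤ (s / t) ^ (1 / 8 : ℝ) * α t := by
  have hd : ∀ x, 0 < x → HasDerivAt α (deriv α x) x := fun x hx =>
    ((h1.differentiableOn one_ne_zero).differentiableAt (Ioi_mem_nhds hx)).hasDerivAt
  have hg : ∀ x, 0 < x → HasDerivAt (fun x => α x * x ^ (-(1 / 8) : ℝ))
      (deriv α x * x ^ (-(1 / 8) : ℝ) + α x * ((-(1 / 8) : ℝ) * x ^ ((-(1 / 8) : ℝ) - 1))) x :=
    fun x hx => (hd x hx).mul (Real.hasDerivAt_rpow_const (Or.inl hx.ne'))
  have hanti : AntitoneOn (fun x => α x * x ^ (-(1 / 8) : ℝ)) (Icc t s) := by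
    refine antitoneOn_of_deriv_nonpos (convex_Icc t s)
      (fun x hx => (hg x (ht.trans_le hx.1)).continuousAt.continuousWithinAt)
      (fun x hx => ?_) (fun x hx => ?_)
    · rw [interior_Icc] at hx
      exact (hg x (ht.trans hx.1)).differentiableAt.differentiableWithinAt
    · rw [interior_Icc] at hx
      have hx0 : 0 < x := ht.trans hx.1
      have hx1 : x ≤ 1 := hx.2.le.trans hs
      rw [(hg x hx0).deriv]
      have e1 : x ^ (-(1 / 8) : ℝ) = x * x ^ ((-(1 / 8) : ℝ) - 1) := by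
        rw [Real.rpow_sub_one hx0.ne']
        field_simp
      rw [e1]
      have h5 : 0 < x ^ ((-(1 / 8) : ℝ) - 1) := Real.rpow_pos_of_pos hx0 _
      have h6 := h4 x hx0 hx1
      have h7 := h3 x hx0 hx1
      have e2 : deriv α x * (x * x ^ ((-(1 / 8) : ℝ) - 1)) +
          α x * (-(1 / 8) * x ^ ((-(1 / 8) : ℝ) - 1)) =
          (x * deriv α x - 1 / 8 * α x) * x ^ ((-(1 / 8) : ℝ) - 1) := by ring
      rw [e2]
      refine mul_nonpos_of_nonpos_of_nonneg ?_ h5.le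
      linarith
  have hkey := hanti (left_mem_Icc.2 hts) (right_mem_Icc.2 hts) hts
  have hs0 : 0 < s := ht.trans_le hts
  simp only at hkey
  rw [Real.rpow_neg hs0.le, Real.rpow_neg ht.le, ← div_eq_mul_inv, ← div_eq_mul_inv,
    div_le_div_iff₀ (Real.rpow_pos_of_pos hs0 _) (Real.rpow_pos_of_pos ht _)] at hkey
  rw [Real.div_rpow hs0.le ht.le, div_mul_eq_mul_div, le_div_iff₀ (Real.rpow_pos_of_pos ht _)]
  linarith

/-- the extended majorant is slowly varying -/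
theorem slow_om {α : ℝ → ℝ} (h1 : ContDiffOn ℝ 1 α (Ioi 0))
    (h2 : ∀ s t, 0 < s → s ≤ t → α s ≤ α t)
    (h3 : ∀ t, 0 < t → t ≤ 1 → 0 < α t ∧ α t ≤ 1)
    (h4 : ∀ t, 0 < t → t ≤ 1 → t * deriv α t ≤ 1 / 512 * α t) : Slow 1 (om α) := by
  have hb : ∀ t, 0 ≤ om α t ∧ om α t ≤ 1 := by
    intro t
    rcases le_or_gt t 0 with h | h
    · rw [om, if_pos h]; exact ⟨le_rfl, zero_le_one⟩
    · rw [om, if_neg (not_le.2 h)]
      have := h3 (min t 1) (lt_min h one_pos) (min_le_right _ _)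
      exact ⟨this.1.le, this.2⟩
  refine ⟨fun s t hst => ?_, hb, fun s t ht hts hs => ?_⟩
  · rcases le_or_gt s 0 with h | h
    · rw [om, if_pos h]; exact (hb t).1
    · have ht : 0 < t := h.trans_le hst
      rw [om, if_neg (not_le.2 h), om, if_neg (not_le.2 ht)]
      exact h2 _ _ (lt_min h one_pos) (min_le_min_right _ hst)
  · rw [one_mul, om_eq α (ht.trans_le hts) hs, om_eq α ht (hts.trans hs)]
    exact ratio h1 (fun t h0 h1 => (h3 t h0 h1).1) h4 ht hts hs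

theorem pos_le {z : E d} (hz : z ∈ B d) : 0 < 1 - N z ∧ 1 - N z ≤ 1 :=
  ⟨sub_pos.2 hz, by have := N_nonneg z; linarith⟩

/-- the weight of a regular majorant is slowly varying -/
theorem aw_om {α : ℝ → ℝ} (h1 : ContDiffOn ℝ 1 α (Ioi 0))
    (h3 : ∀ t, 0 < t → t ≤ 1 → 0 < α t ∧ α t ≤ 1)
    (h4 : ∀ t, 0 < t → t ≤ 1 → 0 ≤ t * deriv α t ∧ t * deriv α t ≤ 1 / 512 * α t) :
    AW (fun z : E d => om α (1 - N z)) := by
  have hcd : ContDiffOn ℝ 1 (fun z : E d => α (1 - N z)) (B d) :=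
    h1.comp (contDiff_const.sub N_contDiff).contDiffOn fun z hz => (pos_le hz).1
  refine ⟨hcd.congr fun z hz => om_eq α (pos_le hz).1 (pos_le hz).2, fun z hz => ?_,
    fun z hz ξ => ?_⟩
  · show 0 < om α (1 - N z) ∧ om α (1 - N z) ≤ 1
    rw [om_eq α (pos_le hz).1 (pos_le hz).2]
    exact h3 _ (pos_le hz).1 (pos_le hz).2
  · obtain ⟨p0, p1⟩ := pos_le hz
    have hev : (fun w : E d => om α (1 - N w)) =ᶠ[𝓝 z] fun w => α (1 - N w) := by
      filter_upwards [B_open.mem_nhds hz] with w hw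
      exact om_eq α (pos_le hw).1 (pos_le hw).2
    have hN : HasFDerivAt (fun w : E d => 1 - N w) (-fderiv ℝ N z) z :=
      ((N_contDiff.differentiable one_ne_zero).differentiableAt.hasFDerivAt).const_sub 1
    have hd : HasDerivAt α (deriv α (1 - N z)) (1 - N z) :=
      ((h1.differentiableOn one_ne_zero).differentiableAt (Ioi_mem_nhds p0)).hasDerivAt
    have hc := hd.comp_hasFDerivAt z hN
    have hf : fderiv ℝ (fun w : E d => om α (1 - N w)) z =
        deriv α (1 - N z) • (-fderiv ℝ N z) := by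
      rw [hev.fderiv_eq]
      exact hc.fderiv
    rw [hf]
    have e1 : (deriv α (1 - N z) • (-fderiv ℝ N z)) ξ =
        deriv α (1 - N z) * (-(2 * (ip ξ z).re)) := by
      show deriv α (1 - N z) * (-(fderiv ℝ N z ξ)) = _
      rw [fderiv_N]
    rw [e1]
    show |deriv α (1 - N z) * (-(2 * (ip ξ z).re))| ≤ 1 / 256 * (om α (1 - N z) * len z ξ)
    rw [om_eq α p0 p1]
    obtain ⟨q0, q1⟩ := h4 _ p0 p1
    have hdn : 0 ≤ deriv α (1 - N z) := nonneg_of_mul_nonneg_right q0 p0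
    have hre : |(ip ξ z).re| ≤ (1 - N z) * len z ξ :=
      (Complex.abs_re_le_norm _).trans (ip_le_len hz ξ)
    rw [abs_mul, abs_neg, abs_mul, abs_of_nonneg hdn, abs_two]
    have hl := len_nonneg z ξ
    calc deriv α (1 - N z) * (2 * |(ip ξ z).re|)
        ≤ deriv α (1 - N z) * (2 * ((1 - N z) * len z ξ)) := by gcongr
      _ = 2 * (((1 - N z) * deriv α (1 - N z)) * len z ξ) := by ring
      _ ≤ 2 * ((1 / 512 * α (1 - N z)) * len z ξ) := by gcongr
      _ = 1 / 256 * (α (1 - N z) * len z ξ) := by ring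

/-- **functions with square-Dini radial derivative have vanishing area integral** -/
theorem SDV_of (d : ℕ) (hR : RW) (hE : EU d) (hT : TLV d) : SDV d := by
  intro ω b hω
  obtain ⟨α, C, hC, h1, h2, h3, h4, h5⟩ := hR ω hω
  have h3' : ∀ t, 0 < t → t ≤ 1 → 0 < α t ∧ α t ≤ 1 := fun t a b =>
    ⟨(h3 t a b).1, (h3 t a b).2.1⟩
  have hslow : Slow 1 (om α) := slow_om h1 h2 h3' fun t a b => (h4 t a b).2
  have hint : ∫⁻ t in Ioo (0 : ℝ) 1, ENNReal.ofReal (om α t ^ 2 / t) ≠ ⊤ := by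
    have e : ∫⁻ t in Ioo (0 : ℝ) 1, ENNReal.ofReal (om α t ^ 2 / t) =
        ∫⁻ t in Ioo (0 : ℝ) 1, ENNReal.ofReal (α t ^ 2 / t) :=
      setLIntegral_congr_fun measurableSet_Ioo fun t ht => by
        show ENNReal.ofReal (om α t ^ 2 / t) = ENNReal.ofReal (α t ^ 2 / t)
        rw [om_eq α ht.1 ht.2.le]
    rw [e]; exact h5
  obtain ⟨τ, hτ, htail⟩ := hT 1 (om α) le_rfl hslow hint
  obtain ⟨D, hD, hDE⟩ := hE 1 le_rfl
  refine ⟨τ, max |b| (C * D) + 1, hτ, fun s hs hsb hsω => ⟨hs, fun z hz => ?_,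
    fun z => om α (1 - N z), aw_om h1 h3' h4, htail, fun z hz ξ => ?_⟩⟩
  · have h := hsb z hz
    have h' := le_abs_self b
    have h'' := le_max_left |b| (C * D)
    linarith
  · obtain ⟨p0, p1⟩ := pos_le hz
    have hCn : ‖((C : ℝ) : ℂ)⁻¹‖ = C⁻¹ := by
      rw [norm_inv, Complex.norm_real, Real.norm_eq_abs, abs_of_pos hC]
    have hfd : ∀ w ∈ B d, ∀ η, ‖fderiv ℂ (fun z => ((C : ℝ) : ℂ)⁻¹ * s z) w η‖ =
        C⁻¹ * ‖fderiv ℂ s w η‖ := by
      intro w hw η
      have hd : DifferentiableAt ℂ s w := hs.differentiableAt (B_open.mem_nhds hw)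
      have e : fderiv ℂ (fun z => ((C : ℝ) : ℂ)⁻¹ * s z) w = ((C : ℝ) : ℂ)⁻¹ • fderiv ℂ s w :=
        fderiv_const_mul hd _
      rw [e, smul_apply, smul_eq_mul, norm_mul, hCn]
    have hk := hDE (fun z => ((C : ℝ) : ℂ)⁻¹ * s z) (om α) (hs.const_mul _) hslow
      (fun w hw => ?_) z hz ξ
    · rw [hfd z hz ξ, inv_mul_le_iff₀ hC] at hk
      have ha : 0 ≤ om α (1 - N z) := (hslow.2.1 _).1
      have hl := len_nonneg z ξ
      have hal : 0 ≤ om α (1 - N z) * len z ξ := mul_nonneg ha hl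
      have hm := le_max_right |b| (C * D)
      calc ‖fderiv ℂ s z ξ‖ ≤ C * (D * om α (1 - N z) * len z ξ) := hk
        _ = (C * D) * (om α (1 - N z) * len z ξ) := by ring
        _ ≤ (max |b| (C * D) + 1) * (om α (1 - N z) * len z ξ) :=
            mul_le_mul_of_nonneg_right (by linarith) hal
    · have hw0 : 0 < 1 - nm w := sub_pos.2 (mem_B_nm.1 hw)
      have hw1 : 1 - nm w ≤ 1 := by have := nm_nonneg w; linarith
      rw [hfd w hw w, om_eq α hw0 hw1]
      have h6 := hsω w hw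
      have h7 := (h3 _ hw0 hw1).2.2
      have h8 : (1 - nm w) * ‖fderiv ℂ s w w‖ ≤ C * α (1 - nm w) := h6.trans h7
      calc (1 - nm w) * (C⁻¹ * ‖fderiv ℂ s w w‖) = C⁻¹ * ((1 - nm w) * ‖fderiv ℂ s w w‖) := by
            ring
        _ ≤ C⁻¹ * (C * α (1 - nm w)) := mul_le_mul_of_nonneg_left h8 (inv_nonneg.2 hC.le)
        _ = α (1 - nm w) := by field_simp

end Pool.Agent.N18.RM
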